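import Pool.Agent.Helper34.CM.Stm
import Pool.Agent.W683.MO.SP

/-!
# MP_768c9c_nt: task SP with multiplicities

Adaptation of `Pool/Agent/W683/MO/SP1.lean` and `Pool/Agent/W683/MO/SP.lean`.
-/

set_option autoImplicit false

namespace Pool.Agent.Helper34.CM.SPM

open Finset Filter Topology
open scoped Classical
open Pool.Agent.W76.MO
open Pool.Agent.W683.MO

/-! ### sums over numbers composed of primes of a finite set -/

theorem inv_le_exp {t : ℝ} (h0 : 0 ≤ t) (h1 : t ≤ 1 / 2) : (1 - t)⁻¹ ≤ Real.exp (2 * t) := by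
  have h2 : (0 : ℝ) < 1 - t := by linarith
  have h3 : (1 - t)⁻¹ ≤ 1 + 2 * t := by
    rw [inv_le_iff_one_le_mul₀ h2]
    nlinarith
  have h4 := Real.add_one_le_exp (2 * t)
  linarith

theorem cmp_mul_fun (G H : ℕ → ℝ) (n : ℕ) : cmp (fun p => G p * H p) n = cmp G n * cmp H n := by
  unfold cmp
  exact List.prod_map_mul

theorem sum_factored (x : ℕ → ℝ) (Q : Finset ℕ) (hx0 : ∀ p, 0 ≤ x p) (hx1 : ∀ p ∈ Q, x p ≤ 1 / 2)
    (S : Finset ℕ) (hS : ∀ d ∈ S, ∀ p : ℕ, p.Prime → p ∣ d → p ∈ Q) :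
    ∑ d ∈ S, cmp x d ≤ Real.exp (2 * ∑ p ∈ Q, x p) := by
  set y : ℕ → ℝ := fun p => if p ∈ Q then x p else 0 with hy
  have hy0 : ∀ p, 0 ≤ y p := by
    intro p
    simp only [hy]
    split_ifs
    · exact hx0 p
    · exact le_rfl
  have hy1 : ∀ p, y p ≤ 1 / 2 := by
    intro p
    simp only [hy]
    split_ifs with h
    · exact hx1 p h
    · norm_num
  let f : ℕ →* ℝ :=
    { toFun := fun n => if n = 0 then 0 else cmp y n
      map_one' := by simp [cmp_one]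
      map_mul' := by
        intro m n
        by_cases hm : m = 0
        · simp [hm]
        · by_cases hn : n = 0
          · simp [hn]
          · simp only [mul_eq_zero, hm, hn, or_self, if_false]
            exact cmp_mul y hm hn }
  have hfv : ∀ n : ℕ, n ≠ 0 → f n = cmp y n := by
    intro n hn
    change (if n = 0 then (0 : ℝ) else cmp y n) = cmp y n
    rw [if_neg hn]
  have hf0 : ∀ n : ℕ, 0 ≤ f n := by
    intro n
    change 0 ≤ (if n = 0 then (0 : ℝ) else cmp y n)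
    split_ifs
    · exact le_rfl
    · exact cmp_nonneg n (fun p _ _ => hy0 p)
  have hf : ∀ {p : ℕ}, p.Prime → ‖f p‖ < 1 := by
    intro p hp
    rw [hfv p hp.ne_zero, cmp_prime _ hp, Real.norm_of_nonneg (hy0 p)]
    have := hy1 p
    linarith
  obtain ⟨-, hp⟩ :=
    EulerProduct.summable_and_hasSum_factoredNumbers_prod_filter_prime_geometric hf Q
  have h1 : HasSum (Set.indicator (Nat.factoredNumbers Q) (fun n => f n))
      (∏ p ∈ Q with p.Prime, (1 - f p)⁻¹) := by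
    rw [← hasSum_subtype_iff_indicator]
    exact hp
  have h2 := sum_le_hasSum S (fun d _ => Set.indicator_nonneg (fun n _ => hf0 n) d) h1
  have h3 : ∑ d ∈ S, cmp x d =
      ∑ d ∈ S, Set.indicator (Nat.factoredNumbers Q) (fun n => f n) d := by
    apply sum_congr rfl
    intro d hd
    have h4 : d ∈ Nat.factoredNumbers Q := Nat.mem_factoredNumbers'.2 (hS d hd)
    rw [Set.indicator_of_mem h4, hfv d (Nat.ne_zero_of_mem_factoredNumbers h4)]
    apply cmp_congr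
    intro p hp hpd
    simp only [hy]
    rw [if_pos (hS d hd p hp hpd)]
  rw [h3]
  refine h2.trans ?_
  have h5 : ∏ p ∈ Q with p.Prime, (1 - f p)⁻¹ ≤ ∏ p ∈ Q with p.Prime, Real.exp (2 * x p) := by
    apply Finset.prod_le_prod
    · intro p hp
      rw [mem_filter] at hp
      rw [hfv p hp.2.ne_zero, cmp_prime _ hp.2]
      have := hy1 p
      exact inv_nonneg.2 (by linarith)
    · intro p hp
      rw [mem_filter] at hp
      rw [hfv p hp.2.ne_zero, cmp_prime _ hp.2]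
      have h6 : y p = x p := by simp only [hy]; rw [if_pos hp.1]
      rw [h6]
      exact inv_le_exp (hx0 p) (hx1 p hp.1)
  refine h5.trans ?_
  rw [← Real.exp_sum]
  apply Real.exp_le_exp.2
  rw [mul_sum]
  apply sum_le_sum_of_subset_of_nonneg (filter_subset _ _)
  intro p _ _
  have := hx0 p
  linarith

/-- the part of `n` composed of primes of `Q` -/
theorem q_part (G : ℕ → ℝ) (Q : Finset ℕ) (hG : ∀ p, p ∉ Q → G p = 1) (n : ℕ) (hn : n ≠ 0) :
    ∃ D : ℕ, D ∣ n ∧ D ≠ 0 ∧ (∀ p : ℕ, p.Prime → p ∣ D → p ∈ Q) ∧ cmp G n = cmp G D := by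
  refine ind_primes (P := fun n => ∃ D : ℕ, D ∣ n ∧ D ≠ 0 ∧
    (∀ p : ℕ, p.Prime → p ∣ D → p ∈ Q) ∧ cmp G n = cmp G D) ?_ ?_ n hn
  · exact ⟨1, dvd_rfl, one_ne_zero,
      fun p hp h => absurd (Nat.dvd_one.1 h) hp.one_lt.ne', rfl⟩
  · rintro p m hp hm ⟨D, h1, h2, h3, h4⟩
    by_cases hpQ : p ∈ Q
    · refine ⟨p * D, Nat.mul_dvd_mul_left p h1, mul_ne_zero hp.ne_zero h2, ?_, ?_⟩
      · intro q hq hqd
        rcases (Nat.Prime.dvd_mul hq).1 hqd with h | h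
        · rw [(Nat.prime_dvd_prime_iff_eq hq hp).1 h]
          exact hpQ
        · exact h3 q hq h
      · rw [cmp_mul _ hp.ne_zero hm, cmp_mul _ hp.ne_zero h2, h4]
    · refine ⟨D, h1.mul_left p, h2, h3, ?_⟩
      rw [cmp_mul _ hp.ne_zero hm, cmp_prime _ hp, hG p hpQ, one_mul, h4]

/-- a divisor of middle size -/
theorem mid_divisor (Q : Finset ℕ) (y Z : ℝ) (hy : ∀ q ∈ Q, (q : ℝ) ≤ y) (hZ : 1 ≤ Z) (D : ℕ)
    (hD : D ≠ 0) : (∀ p : ℕ, p.Prime → p ∣ D → p ∈ Q) → Z < D →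
      ∃ d : ℕ, d ∣ D ∧ Z < d ∧ (d : ℝ) ≤ Z * y := by
  refine ind_primes (P := fun D => (∀ p : ℕ, p.Prime → p ∣ D → p ∈ Q) → Z < D →
      ∃ d : ℕ, d ∣ D ∧ Z < d ∧ (d : ℝ) ≤ Z * y) ?_ ?_ D hD
  · intro _ h
    rw [Nat.cast_one] at h
    linarith
  · intro p m hp hm ih h h'
    by_cases hc : Z < m
    · obtain ⟨d, h1, h2, h3⟩ := ih (fun q hq hqm => h q hq (hqm.mul_left p)) hc
      exact ⟨d, h1.mul_left p, h2, h3⟩
    · push Not at hc
      refine ⟨p * m, dvd_rfl, h', ?_⟩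
      push_cast
      have h1 := hy p (h p hp (dvd_mul_right p m))
      have h2 : (0 : ℝ) ≤ p := Nat.cast_nonneg p
      have h3 : (0 : ℝ) ≤ m := Nat.cast_nonneg m
      nlinarith

/-- (B), pointwise -/
theorem B_pointM (G : ℕ → ℝ) (hG1 : ∀ q, 1 ≤ G q) (Q : Finset ℕ) (hG : ∀ p, p ∉ Q → G p = 1)
    (θ Z K y : ℝ) (hθ : 0 ≤ θ) (hGθ : ∀ q ∈ Q, G q ≤ (q : ℝ) ^ θ)
    (hy : ∀ q ∈ Q, (q : ℝ) ≤ y) (hZ : 1 ≤ Z) (n N : ℕ) (hn : 1 ≤ n) (hN : n ≤ N)
    (hK : (n : ℝ) ^ θ ≤ K) :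
    cmp G n ≤
      ∑ d ∈ (Icc 1 N).filter (fun d : ℕ => (∀ p : ℕ, p.Prime → p ∣ d → p ∈ Q) ∧ (d : ℝ) ≤ Z),
        cmp G d * (if d ∣ n then 1 else 0) +
      K * ∑ d ∈ (Icc 1 N).filter (fun d : ℕ => (∀ p : ℕ, p.Prime → p ∣ d → p ∈ Q) ∧
        Z < (d : ℝ) ∧ (d : ℝ) ≤ Z * y), (if d ∣ n then (1 : ℝ) else 0) := by
  have hK0 : 0 ≤ K := le_trans (by positivity) hK
  have hc0 : ∀ d, 0 ≤ cmp G d := fun d =>
    cmp_nonneg d (fun p _ _ => zero_le_one.trans (hG1 p))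
  obtain ⟨D, hDn, hD0, hDQ, hDe⟩ := q_part G Q hG n (by omega)
  have hDle : D ≤ n := Nat.le_of_dvd (by omega) hDn
  by_cases hc : (D : ℝ) ≤ Z
  · have h1 : cmp G n ≤ ∑ d ∈ (Icc 1 N).filter (fun d : ℕ =>
        (∀ p : ℕ, p.Prime → p ∣ d → p ∈ Q) ∧ (d : ℝ) ≤ Z),
        cmp G d * (if d ∣ n then 1 else 0) := by
      have h2 := single_le_sum (f := fun d : ℕ => cmp G d * (if d ∣ n then (1 : ℝ) else 0))
        (s := (Icc 1 N).filter (fun d : ℕ =>
          (∀ p : ℕ, p.Prime → p ∣ d → p ∈ Q) ∧ (d : ℝ) ≤ Z)) (fun d _ => by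
            have := hc0 d
            split_ifs <;> simp [this]) (a := D) (by
          rw [mem_filter, mem_Icc]
          exact ⟨⟨by omega, by omega⟩, hDQ, hc⟩)
      simp only [if_pos hDn, mul_one] at h2
      rw [hDe]
      exact h2
    have h3 : 0 ≤ K * ∑ d ∈ (Icc 1 N).filter (fun d : ℕ => (∀ p : ℕ, p.Prime → p ∣ d → p ∈ Q) ∧
        Z < (d : ℝ) ∧ (d : ℝ) ≤ Z * y), (if d ∣ n then (1 : ℝ) else 0) := by
      apply mul_nonneg hK0
      apply sum_nonneg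
      intro d _
      split_ifs <;> simp
    linarith
  · push Not at hc
    obtain ⟨d, hd1, hd2, hd3⟩ := mid_divisor Q y Z hy hZ D hD0 hDQ hc
    have hdn : d ∣ n := hd1.trans hDn
    have hdle : d ≤ n := Nat.le_of_dvd (by omega) hdn
    have hd0 : 1 ≤ d := Nat.pos_of_dvd_of_pos hdn (by omega)
    have h1 : cmp G n ≤ K := by
      refine le_trans ?_ hK
      rw [← cmp_rpow θ n (by omega)]
      refine (cmp_mono n (by omega) ?_).2
      intro p hp _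
      refine ⟨zero_le_one.trans (hG1 p), ?_⟩
      by_cases hpQ : p ∈ Q
      · exact hGθ p hpQ
      · rw [hG p hpQ]
        exact Real.one_le_rpow (by exact_mod_cast hp.one_lt.le) hθ
    have h2 : (1 : ℝ) ≤ ∑ d ∈ (Icc 1 N).filter (fun d : ℕ =>
        (∀ p : ℕ, p.Prime → p ∣ d → p ∈ Q) ∧
        Z < (d : ℝ) ∧ (d : ℝ) ≤ Z * y), (if d ∣ n then (1 : ℝ) else 0) := by
      have h3 := single_le_sum (f := fun d : ℕ => (if d ∣ n then (1 : ℝ) else 0))
        (s := (Icc 1 N).filter (fun d : ℕ => (∀ p : ℕ, p.Prime → p ∣ d → p ∈ Q) ∧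
        Z < (d : ℝ) ∧ (d : ℝ) ≤ Z * y)) (fun d _ => by split_ifs <;> simp) (a := d) (by
          rw [mem_filter, mem_Icc]
          exact ⟨⟨hd0, by omega⟩, fun p hp hpd => hDQ p hp (hpd.trans hd1), hd2, hd3⟩)
      simp only [if_pos hdn] at h3
      exact h3
    have h4 : 0 ≤ ∑ d ∈ (Icc 1 N).filter (fun d : ℕ =>
        (∀ p : ℕ, p.Prime → p ∣ d → p ∈ Q) ∧ (d : ℝ) ≤ Z),
        cmp G d * (if d ∣ n then 1 else 0) := by
      apply sum_nonneg
      intro d _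
      have := hc0 d
      split_ifs <;> simp [this]
    have h5 : K * 1 ≤ K * _ := mul_le_mul_of_nonneg_left h2 hK0
    linarith

/-- (B) -/
theorem B_boundM (E : Env) (hG : E.GBounds) : ∃ J : ℕ, 1 ≤ J ∧ ∀ j : ℕ, J ≤ j → ∀ i : ℕ, j ≤ i →
    ∀ k : ℕ, k < nc E.δ i → ∑ n ∈ cell E.δ i k,
      cmp (fun p => if (p : ℝ) ≤ (2 : ℝ) ^ (1 / 20 * (i : ℝ)) then 1 + 2 * (p * E.gh j p) else 1)
        n ≤ 7 * hh E.δ i := by
  have hδ := E.hδ
  have hδt := E.hδ'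
  have hτ := E.hτ
  have hτ' := E.hτ'
  obtain ⟨J0, hJ0, hJ⟩ := hG
  obtain ⟨J1, hJ1⟩ := large (E.τ / 16 - 9 * E.δ) 8 0 (by linarith)
  obtain ⟨J2, hJ2⟩ := large (1 / 5 - E.δ) 2 0 (by linarith)
  refine ⟨J0 + J1 + J2 + 6, by omega, fun j hj i hij k hk => ?_⟩
  obtain ⟨-, -, g3, -, g5, -, g7, g8, -⟩ := hJ j (by omega)
  have hjR : (6 : ℝ) ≤ j := by exact_mod_cast (by omega : 6 ≤ j)
  have hh0 := hh_posR E.δ i
  set G : ℕ → ℝ := fun p =>
    if (p : ℝ) ≤ (2 : ℝ) ^ (1 / 20 * (i : ℝ)) then 1 + 2 * (p * E.gh j p) else 1 with hGd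
  have hG1 : ∀ q, 1 ≤ G q := by
    intro q
    have h1 : 0 ≤ (q : ℝ) * E.gh j q := mul_nonneg (Nat.cast_nonneg q) (g3 q)
    simp only [hGd]
    split_ifs
    · linarith
    · exact le_rfl
  set Q : Finset ℕ := (range (2 ^ i + 1)).filter (fun q : ℕ =>
    (q : ℝ) ≤ (2 : ℝ) ^ (1 / 20 * (i : ℝ)) ∧ E.gh j q ≠ 0) with hQ
  have hQp : ∀ q ∈ Q, q.Prime := by
    intro q hq
    rw [hQ, mem_filter] at hq
    exact (g5 q hq.2.2).1.1
  have hiR : (0 : ℝ) ≤ i := by positivity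
  have hGQ : ∀ p, p ∉ Q → G p = 1 := by
    intro p hp
    simp only [hGd]
    split_ifs with h
    · have h6 : (p : ℝ) ≤ 2 ^ i := by
        refine h.trans ?_
        rw [← Real.rpow_natCast]
        apply Real.rpow_le_rpow_of_exponent_le (by norm_num)
        linarith
      have h7 : p ≤ 2 ^ i := by exact_mod_cast h6
      have h8 : E.gh j p = 0 := by
        by_contra h9
        apply hp
        rw [hQ, mem_filter, mem_range]
        exact ⟨by omega, h, h9⟩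
      rw [h8]
      ring
    · rfl
  have hGin : ∀ q ∈ Q, G q = 1 + 2 * (q * E.gh j q) := by
    intro q hq
    rw [hQ, mem_filter] at hq
    simp only [hGd]
    rw [if_pos hq.2.1]
  set Z1 : ℝ := (2 : ℝ) ^ (1 / 4 * (i : ℝ)) with hZ1
  set Z2 : ℝ := (2 : ℝ) ^ (3 / 10 * (i : ℝ)) with hZ2
  set y : ℝ := (2 : ℝ) ^ (1 / 20 * (i : ℝ)) with hy
  set K : ℝ := 2 * (2 : ℝ) ^ (9 * E.δ * i) with hK
  have hZy : Z1 * y = Z2 := by
    rw [hZ1, hZ2, hy, ← Real.rpow_add (by norm_num)]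
    congr 1; ring
  set W1 := (Icc 1 (2 ^ (i + 1))).filter (fun d : ℕ =>
    (∀ p : ℕ, p.Prime → p ∣ d → p ∈ Q) ∧ (d : ℝ) ≤ Z1) with hW1
  set W2 := (Icc 1 (2 ^ (i + 1))).filter (fun d : ℕ =>
    (∀ p : ℕ, p.Prime → p ∣ d → p ∈ Q) ∧ Z1 < (d : ℝ) ∧ (d : ℝ) ≤ Z1 * y) with hW2
  have hZ12 : Z1 ≤ Z2 := by
    apply Real.rpow_le_rpow_of_exponent_le (by norm_num)
    linarith
  have hpt : ∀ n ∈ cell E.δ i k, cmp G n ≤
      ∑ d ∈ W1, cmp G d * (if d ∣ n then 1 else 0) +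
      K * ∑ d ∈ W2, (if d ∣ n then (1 : ℝ) else 0) := by
    intro n hn
    have hn2 := cell_sub hδ.le hk hn
    apply B_pointM G hG1 Q hGQ (9 * E.δ) Z1 K y (by linarith)
    · intro q hq
      rw [hGin q hq]
      rw [hQ, mem_filter] at hq
      exact (g7 q hq.2.2).2
    · intro q hq
      rw [hQ, mem_filter] at hq
      exact hq.2.1
    · exact Real.one_le_rpow (by norm_num) (by positivity)
    · omega
    · exact hn2.2
    · have hnR : (n : ℝ) ≤ (2 : ℝ) ^ ((i : ℝ) + 1) := by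
        have : (n : ℝ) ≤ 2 ^ (i + 1) := by exact_mod_cast hn2.2
        rw [← Real.rpow_natCast] at this
        push_cast at this
        exact this
      calc (n : ℝ) ^ (9 * E.δ) ≤ ((2 : ℝ) ^ ((i : ℝ) + 1)) ^ (9 * E.δ) :=
            Real.rpow_le_rpow (by positivity) hnR (by linarith)
        _ = (2 : ℝ) ^ (((i : ℝ) + 1) * (9 * E.δ)) := by rw [← Real.rpow_mul (by norm_num)]
        _ ≤ (2 : ℝ) ^ (1 + 9 * E.δ * i) := by
            apply Real.rpow_le_rpow_of_exponent_le (by norm_num)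
            nlinarith
        _ = K := by rw [hK, Real.rpow_add (by norm_num), Real.rpow_one]
  refine (sum_le_sum hpt).trans ?_
  rw [sum_add_distrib, ← mul_sum, sum_comm (s := cell E.δ i k) (t := W1),
    sum_comm (s := cell E.δ i k) (t := W2)]
  -- counting
  have hZ2h : Z2 ≤ hh E.δ i := by
    have h1 := hJ2 i (by omega)
    rw [pow_zero, mul_one] at h1
    have h2 := lt_hh (δ := E.δ) i
    have h3 : Z2 * (2 : ℝ) ^ ((1 / 5 - E.δ) * i) = (2 : ℝ) ^ ((1 / 2 - E.δ) * i) := by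
      rw [hZ2, ← Real.rpow_add (by norm_num)]
      congr 1; ring
    have h4 : (0 : ℝ) < Z2 := by positivity
    nlinarith
  have hcount : ∀ d : ℕ, 1 ≤ d → (d : ℝ) ≤ Z2 →
      ∑ n ∈ cell E.δ i k, (if d ∣ n then (1 : ℝ) else 0) ≤ 2 * hh E.δ i / (d : ℝ) := by
    intro d hd hle
    have hposR : (0 : ℝ) < (d : ℝ) := by exact_mod_cast hd
    rw [sum_boole]
    have h1 := card_mult (2 ^ i + k * hh E.δ i) (hh E.δ i) d hd
    have h2 : cell E.δ i k = Ioc (2 ^ i + k * hh E.δ i) (2 ^ i + k * hh E.δ i + hh E.δ i) := by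
      unfold cell
      congr 1; ring
    rw [h2]
    refine h1.trans ?_
    have h3 : (1 : ℝ) ≤ hh E.δ i / (d : ℝ) := by
      rw [le_div_iff₀ hposR, one_mul]
      exact hle.trans hZ2h
    have h4 : 2 * (hh E.δ i : ℝ) / (d : ℝ) =
        hh E.δ i / (d : ℝ) + hh E.δ i / (d : ℝ) := by ring
    rw [h4]
    linarith
  have hexp1 : Real.exp 1 ≤ 3 := by
    have := Real.exp_one_lt_d9
    linarith
  have hexp2 : Real.exp (2 / j) ≤ 2 := by
    have h1 : (2 : ℝ) / j ≤ 2 / 6 := div_le_div_of_nonneg_left (by norm_num) (by norm_num) hjR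
    calc Real.exp (2 / j) ≤ Real.exp (Real.log 2) := by
          apply Real.exp_le_exp.2
          have := Real.log_two_gt_d9
          linarith
      _ = 2 := Real.exp_log (by norm_num)
  have hj6 : (1 : ℝ) / j ≤ 1 / 6 := one_div_le_one_div_of_le (by norm_num) hjR
  have g8Q := g8 Q
  have hqpos : ∀ q ∈ Q, (1 : ℝ) ≤ q := fun q hq => by exact_mod_cast (hQp q hq).one_lt.le
  have hq1 : ∀ q ∈ Q, 1 ≤ (q : ℝ) * E.gh j q := by
    intro q hq
    rw [hQ, mem_filter] at hq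
    exact (g5 q hq.2.2).2.2
  -- first sum
  have hS1 : ∑ d ∈ W1, ∑ n ∈ cell E.δ i k,
      cmp G d * (if d ∣ n then (1 : ℝ) else 0) ≤ 6 * hh E.δ i := by
    have h1 : ∀ d ∈ W1, ∑ n ∈ cell E.δ i k,
        cmp G d * (if d ∣ n then (1 : ℝ) else 0) ≤
        2 * hh E.δ i * cmp (fun q => G q / q) d := by
      intro d hd
      rw [hW1, mem_filter, mem_Icc] at hd
      rw [← mul_sum]
      have h2 := hcount d hd.1.1 (hd.2.2.trans hZ12)
      have h3 : 0 ≤ cmp G d := cmp_nonneg d (fun p _ _ => zero_le_one.trans (hG1 p))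
      refine (mul_le_mul_of_nonneg_left h2 h3).trans (le_of_eq ?_)
      have h4 : cmp (fun q => G q / q) d = cmp G d * (d : ℝ)⁻¹ := by
        have h5 := cmp_rpow (-1) d (by omega)
        rw [Real.rpow_neg_one] at h5
        rw [← h5, ← cmp_mul_fun]
        apply cmp_congr
        intro p _ _
        rw [Real.rpow_neg_one, div_eq_mul_inv]
      rw [h4]
      ring
    refine (sum_le_sum h1).trans ?_
    rw [← mul_sum]
    have h6 : ∀ S : Finset ℕ, S ⊆ Q → ∑ q ∈ S, G q / q ≤ 1 / 2 := by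
      intro S hSQ
      have h7 : ∀ q ∈ S, G q / q ≤ 3 * ((q * E.gh j q) * (q : ℝ) ^ (-1 + E.τ / 4)) := by
        intro q hqS
        have hq := hSQ hqS
        have h8 := hqpos q hq
        have h9 : (q : ℝ) ^ (-1 + E.τ / 4) ≥ (q : ℝ)⁻¹ := by
          rw [← Real.rpow_neg_one]
          apply Real.rpow_le_rpow_of_exponent_le h8
          linarith
        have h10 := hq1 q hq
        have h11 : (0 : ℝ) < (q : ℝ)⁻¹ := by positivity
        rw [hGin q hq, div_eq_mul_inv]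
        have h12 : (1 + 2 * ((q : ℝ) * E.gh j q)) * (q : ℝ)⁻¹ ≤
            (3 * ((q : ℝ) * E.gh j q)) * (q : ℝ)⁻¹ :=
          mul_le_mul_of_nonneg_right (by linarith) h11.le
        have h13 : (3 * ((q : ℝ) * E.gh j q)) * (q : ℝ)⁻¹ ≤
            (3 * ((q : ℝ) * E.gh j q)) * (q : ℝ) ^ (-1 + E.τ / 4) :=
          mul_le_mul_of_nonneg_left h9 (by linarith)
        linarith
      refine (sum_le_sum h7).trans ?_
      rw [← mul_sum]
      have h14 := g8 S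
      linarith
    have h8 : ∑ d ∈ W1, cmp (fun q => G q / q) d ≤ Real.exp (2 * ∑ p ∈ Q, G p / p) := by
      apply sum_factored
      · intro p
        have := hG1 p
        positivity
      · intro p hp
        have := h6 {p} (singleton_subset_iff.2 hp)
        rwa [sum_singleton] at this
      · intro d hd
        rw [hW1, mem_filter] at hd
        exact hd.2.1
    have h12 : ∑ d ∈ W1, cmp (fun q => G q / q) d ≤ 3 := by
      refine h8.trans (le_trans (Real.exp_le_exp.2 ?_) hexp1)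
      have := h6 Q (Subset.refl _)
      linarith
    nlinarith
  -- second sum
  have hS2 : K * ∑ d ∈ W2, ∑ n ∈ cell E.δ i k, (if d ∣ n then (1 : ℝ) else 0) ≤
      hh E.δ i := by
    have h1 : ∀ d ∈ W2, ∑ n ∈ cell E.δ i k, (if d ∣ n then (1 : ℝ) else 0) ≤
        2 * hh E.δ i * (2 : ℝ) ^ (-(E.τ / 16) * (i : ℝ)) *
          cmp (fun q => (q : ℝ) ^ (-1 + E.τ / 4)) d := by
      intro d hd
      rw [hW2, mem_filter, mem_Icc] at hd
      obtain ⟨hd0, hs1, hs2, hs3⟩ := hd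
      rw [hZy] at hs3
      refine (hcount d hd0.1 hs3).trans ?_
      rw [cmp_rpow _ d (by omega)]
      have hZpos : (0 : ℝ) < Z1 := by positivity
      have hdpos : (0 : ℝ) < d := hZpos.trans hs2
      have h2 : (d : ℝ) ^ (-1 + E.τ / 4) = (d : ℝ)⁻¹ * (d : ℝ) ^ (E.τ / 4) := by
        rw [Real.rpow_add hdpos, Real.rpow_neg_one]
      have h3 : (2 : ℝ) ^ (E.τ / 16 * (i : ℝ)) ≤ (d : ℝ) ^ (E.τ / 4) := by
        have h4 : (2 : ℝ) ^ (E.τ / 16 * (i : ℝ)) = Z1 ^ (E.τ / 4) := by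
          rw [hZ1, ← Real.rpow_mul (by norm_num)]
          congr 1; ring
        rw [h4]
        exact Real.rpow_le_rpow hZpos.le hs2.le (by linarith)
      have h5 : (2 : ℝ) ^ (-(E.τ / 16) * (i : ℝ)) * (2 : ℝ) ^ (E.τ / 16 * (i : ℝ)) = 1 := by
        rw [← Real.rpow_add (by norm_num)]
        rw [show -(E.τ / 16) * (i : ℝ) + E.τ / 16 * (i : ℝ) = 0 by ring, Real.rpow_zero]
      rw [h2]
      have h6 : 2 * (hh E.δ i : ℝ) / d = 2 * hh E.δ i * (d : ℝ)⁻¹ *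
          ((2 : ℝ) ^ (-(E.τ / 16) * (i : ℝ)) * (2 : ℝ) ^ (E.τ / 16 * (i : ℝ))) := by
        rw [h5]; ring
      rw [h6]
      have h7 : 2 * (hh E.δ i : ℝ) * (d : ℝ)⁻¹ *
          ((2 : ℝ) ^ (-(E.τ / 16) * (i : ℝ)) * (2 : ℝ) ^ (E.τ / 16 * (i : ℝ))) ≤
          2 * (hh E.δ i : ℝ) * (d : ℝ)⁻¹ *
          ((2 : ℝ) ^ (-(E.τ / 16) * (i : ℝ)) * (d : ℝ) ^ (E.τ / 4)) := by
        apply mul_le_mul_of_nonneg_left _ (by positivity)
        exact mul_le_mul_of_nonneg_left h3 (by positivity)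
      refine h7.trans (le_of_eq ?_)
      ring
    have h2 : ∑ d ∈ W2, ∑ n ∈ cell E.δ i k, (if d ∣ n then (1 : ℝ) else 0) ≤
        2 * hh E.δ i * (2 : ℝ) ^ (-(E.τ / 16) * (i : ℝ)) * 2 := by
      refine (sum_le_sum h1).trans ?_
      rw [← mul_sum]
      apply mul_le_mul_of_nonneg_left _ (by positivity)
      have h6 : ∀ S : Finset ℕ, S ⊆ Q → ∑ q ∈ S, (q : ℝ) ^ (-1 + E.τ / 4) ≤ 1 / j := by
        intro S hSQ
        refine le_trans (sum_le_sum ?_) (g8 S)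
        intro q hqS
        have h7 := hq1 q (hSQ hqS)
        have h8 : 0 ≤ (q : ℝ) ^ (-1 + E.τ / 4) := by positivity
        nlinarith
      have h8 : ∑ d ∈ W2, cmp (fun q => (q : ℝ) ^ (-1 + E.τ / 4)) d ≤
          Real.exp (2 * ∑ p ∈ Q, (p : ℝ) ^ (-1 + E.τ / 4)) := by
        apply sum_factored
        · intro p
          positivity
        · intro p hp
          have := h6 {p} (singleton_subset_iff.2 hp)
          rw [sum_singleton] at this
          linarith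
        · intro d hd
          rw [hW2, mem_filter] at hd
          exact hd.2.1
      refine h8.trans (le_trans (Real.exp_le_exp.2 ?_) hexp2)
      have h9 := h6 Q (Subset.refl _)
      have h10 : (2 : ℝ) / j = 2 * (1 / j) := by ring
      rw [h10]
      linarith
    have hbig := hJ1 i (by omega)
    rw [pow_zero, mul_one] at hbig
    have h3 : (2 : ℝ) ^ (9 * E.δ * i) * (2 : ℝ) ^ ((E.τ / 16 - 9 * E.δ) * i) *
        (2 : ℝ) ^ (-(E.τ / 16) * (i : ℝ)) = 1 := by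
      rw [← Real.rpow_add (by norm_num), ← Real.rpow_add (by norm_num)]
      rw [show 9 * E.δ * i + (E.τ / 16 - 9 * E.δ) * i + -(E.τ / 16) * (i : ℝ) = 0 by ring,
        Real.rpow_zero]
    have hKpos : 0 ≤ K := by positivity
    refine (mul_le_mul_of_nonneg_left h2 hKpos).trans ?_
    rw [hK]
    have h4 : 2 * (2 : ℝ) ^ (9 * E.δ * i) * (2 * hh E.δ i * (2 : ℝ) ^ (-(E.τ / 16) * (i : ℝ)) * 2)
        = hh E.δ i * ((2 : ℝ) ^ (9 * E.δ * i) * 8 * (2 : ℝ) ^ (-(E.τ / 16) * (i : ℝ))) := by ring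
    rw [h4]
    have h5 : (2 : ℝ) ^ (9 * E.δ * i) * 8 * (2 : ℝ) ^ (-(E.τ / 16) * (i : ℝ)) ≤ 1 := by
      rw [← h3]
      apply mul_le_mul_of_nonneg_right _ (by positivity)
      exact mul_le_mul_of_nonneg_left hbig (by positivity)
    nlinarith
  linarith

theorem prod_filter_list (P : ℕ → Prop) [DecidablePred P] (G H : ℕ → ℝ) (h1 : ∀ p, P p → G p = H p)
    (h2 : ∀ p, ¬ P p → G p = 1) (l : List ℕ) :
    (l.map G).prod = ((l.filter (fun p => decide (P p))).map H).prod := by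
  induction l with
  | nil => simp
  | cons p l ih =>
    rw [List.map_cons, List.prod_cons, ih]
    by_cases hp : P p
    · rw [List.filter_cons_of_pos (by simpa using hp), List.map_cons, List.prod_cons, h1 p hp]
    · rw [List.filter_cons_of_neg (by simpa using hp), h2 p hp, one_mul]

/-- (A) -/
theorem A_boundM (E : Env) (hG : E.GBounds) : ∃ J : ℕ, 1 ≤ J ∧ ∀ j : ℕ, J ≤ j → ∀ i : ℕ, j ≤ i →
    ∀ n : ℕ, 1 ≤ n → n ≤ 2 ^ (i + 1) →
      cmp (fun p => if (p : ℝ) ≤ (2 : ℝ) ^ (3 / 5 * (i : ℝ)) then 1 + 2 * (p * E.gu j p) else 1)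
        n ≤ (2 : ℝ) ^ (E.δ / 2 * i) / (i : ℝ) ^ 50 := by
  have hδ := E.hδ
  have hδ1 : E.δ ≤ 1 := by have := E.hδ'; have := E.hτ'; linarith
  obtain ⟨J0, hJ0, hJ⟩ := hG
  obtain ⟨J1, hJ1⟩ := large (E.δ / 50) 1 50 (by linarith)
  refine ⟨J0 + J1 + 1003, by omega, fun j hj i hij n hn1 hn => ?_⟩
  obtain ⟨-, -, -, g4, -, g6, -, -, -⟩ := hJ j (by omega)
  set l : List ℕ := n.primeFactorsList.filter
    (fun p : ℕ => decide ((p : ℝ) ≤ (2 : ℝ) ^ (3 / 5 * (i : ℝ)) ∧ E.U j p)) with hl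
  set F : Finset (Fin l.length) := Finset.univ with hF
  set pr : Fin l.length → ℕ := fun x => l[x.1] with hpr
  have e1 : cmp (fun p => if (p : ℝ) ≤ (2 : ℝ) ^ (3 / 5 * (i : ℝ)) then
      1 + 2 * (p * E.gu j p) else 1) n = ∏ x ∈ F, (1 + 2 * ((pr x : ℝ) * E.gu j (pr x))) := by
    have h1 := Fin.prod_univ_fun_getElem l (fun p : ℕ => 1 + 2 * ((p : ℝ) * E.gu j p))
    have h2 : cmp (fun p => if (p : ℝ) ≤ (2 : ℝ) ^ (3 / 5 * (i : ℝ)) then
      1 + 2 * (p * E.gu j p) else 1) n = (l.map (fun p : ℕ => 1 + 2 * ((p : ℝ) * E.gu j p))).prod := by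
      unfold cmp
      rw [hl]
      apply prod_filter_list
      · intro p hp
        rw [if_pos hp.1]
      · intro p hp
        split_ifs with h
        · have h3 : E.gu j p = 0 := by
            by_contra h4
            exact hp ⟨h, g4 p h4⟩
          rw [h3]
          ring
        · rfl
    rw [h2, ← h1]
  rw [e1]
  have hmem : ∀ x, pr x ∈ l := fun x => List.getElem_mem x.2
  have hFU : ∀ x ∈ F, E.U j (pr x) := by
    intro x _
    have h1 := hmem x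
    rw [hl, List.mem_filter] at h1
    exact (of_decide_eq_true h1.2).2
  have hFp : ∀ x ∈ F, (pr x : ℝ) ≤ (2 : ℝ) ^ (3 / 5 * (i : ℝ)) := by
    intro x _
    have h1 := hmem x
    rw [hl, List.mem_filter] at h1
    exact (of_decide_eq_true h1.2).1
  have hsc : ∀ x ∈ F, 2 ^ Env.sc (pr x) < pr x := by
    intro p hp
    exact (sc_spec (E.u_prime (pr p) (hFU p hp).1).two_le).1
  have ha2 : ∀ p ∈ F, 2 ≤ Env.sc (pr p) := by
    intro p hp
    have := (g6 (pr p) (hFU p hp)).1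
    omega
  have ha6 : ∀ p ∈ F, 10 * Env.sc (pr p) ≤ 6 * i := by
    intro p hp
    have h1 : (2 : ℝ) ^ ((Env.sc (pr p) : ℕ) : ℝ) < (2 : ℝ) ^ (3 / 5 * (i : ℝ)) := by
      rw [Real.rpow_natCast]
      refine lt_of_lt_of_le ?_ (hFp p hp)
      exact_mod_cast hsc p hp
    have h2 := (Real.rpow_lt_rpow_left_iff (by norm_num)).1 h1
    have h3 : (10 * Env.sc (pr p) : ℝ) ≤ 6 * i := by linarith
    exact_mod_cast h3
  have hSum : ∑ p ∈ F, Env.sc (pr p) ≤ i + 1 := by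
    have h1 : ∏ p ∈ F, 2 ^ Env.sc (pr p) ≤ ∏ p ∈ F, pr p :=
      prod_le_prod' (fun p hp => (hsc p hp).le)
    have h2 : ∏ p ∈ F, pr p ∣ n := by
      have h5 : ∏ p ∈ F, pr p = l.prod := Fin.prod_univ_getElem l
      rw [h5]
      have h6 : l.prod ∣ n.primeFactorsList.prod := List.filter_sublist.prod_dvd_prod
      rwa [Nat.prod_primeFactorsList (by omega)] at h6
    have h3 := Nat.le_of_dvd (by omega) h2
    rw [prod_pow_eq_pow_sum] at h1
    have h4 : 2 ^ (∑ p ∈ F, Env.sc (pr p)) ≤ 2 ^ (i + 1) := by omega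
    exact (Nat.pow_le_pow_iff_right (by norm_num)).1 h4
  have hprod : ∏ p ∈ F, (1 + 2 * ((pr p : ℝ) * E.gu j (pr p))) ≤
      (2 : ℝ) ^ (E.δ / 2 * ((∑ p ∈ F, Env.sc (pr p) : ℕ) : ℝ)) /
        ((∏ p ∈ F, Env.sc (pr p) : ℕ) : ℝ) ^ 35 := by
    have h1 : ∏ p ∈ F, (1 + 2 * ((pr p : ℝ) * E.gu j (pr p))) ≤
        ∏ p ∈ F, ((2 : ℝ) ^ (E.δ / 2 * Env.sc (pr p)) / (Env.sc (pr p) : ℝ) ^ 35) := by
      apply Finset.prod_le_prod
      · intro p _
        have := gu_nonneg E j (pr p)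
        positivity
      · intro p hp
        exact (g6 (pr p) (hFU p hp)).2
    refine h1.trans (le_of_eq ?_)
    rw [prod_div_distrib]
    congr 1
    · rw [← Real.rpow_sum_of_pos (by norm_num)]
      congr 1
      push_cast
      rw [mul_sum]
    · push_cast
      rw [prod_pow]
  refine hprod.trans ?_
  have hiR : (1000 : ℝ) ≤ i := by exact_mod_cast (by omega : 1000 ≤ i)
  have hPpos : 1 ≤ ∏ p ∈ F, Env.sc (pr p) := by
    apply Nat.one_le_iff_ne_zero.2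
    rw [prod_ne_zero_iff]
    intro p hp
    have := ha2 p hp
    omega
  have hPR : (1 : ℝ) ≤ ((∏ p ∈ F, Env.sc (pr p) : ℕ) : ℝ) := by exact_mod_cast hPpos
  by_cases hc : 25 * ∑ p ∈ F, Env.sc (pr p) ≤ 24 * i
  · have hbig := hJ1 i (by omega)
    rw [one_mul] at hbig
    have hc' : (25 : ℝ) * ((∑ p ∈ F, Env.sc (pr p) : ℕ) : ℝ) ≤ 24 * i := by exact_mod_cast hc
    rw [div_le_div_iff₀ (by positivity) (by positivity)]
    have h1 : (2 : ℝ) ^ (E.δ / 2 * ((∑ p ∈ F, Env.sc (pr p) : ℕ) : ℝ)) * (i : ℝ) ^ 50 ≤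
        (2 : ℝ) ^ (E.δ / 2 * ((∑ p ∈ F, Env.sc (pr p) : ℕ) : ℝ)) * (2 : ℝ) ^ (E.δ / 50 * i) :=
      mul_le_mul_of_nonneg_left hbig (by positivity)
    have h2 : (2 : ℝ) ^ (E.δ / 2 * ((∑ p ∈ F, Env.sc (pr p) : ℕ) : ℝ)) *
        (2 : ℝ) ^ (E.δ / 50 * i) ≤ (2 : ℝ) ^ (E.δ / 2 * i) := by
      rw [← Real.rpow_add (by norm_num)]
      apply Real.rpow_le_rpow_of_exponent_le (by norm_num)
      nlinarith
    have h3 : (1 : ℝ) ≤ ((∏ p ∈ F, Env.sc (pr p) : ℕ) : ℝ) ^ 35 := one_le_pow₀ hPR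
    have h4 : (0 : ℝ) < (2 : ℝ) ^ (E.δ / 2 * i) := by positivity
    nlinarith
  · push Not at hc
    have h1 := prod_large F (fun x => Env.sc (pr x)) i (by omega) ha2 ha6 hc
    have h1R : (i : ℝ) ^ 2 ≤ 10 * ((∏ p ∈ F, Env.sc (pr p) : ℕ) : ℝ) := by exact_mod_cast h1
    have h2 : ((i : ℝ) ^ 2) ^ 35 ≤ (10 * ((∏ p ∈ F, Env.sc (pr p) : ℕ) : ℝ)) ^ 35 :=
      pow_le_pow_left₀ (by positivity) h1R 35
    have h3 : (1000 : ℝ) ^ 20 ≤ (i : ℝ) ^ 20 := pow_le_pow_left₀ (by norm_num) hiR 20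
    have h4 : 2 * (i : ℝ) ^ 50 ≤ ((∏ p ∈ F, Env.sc (pr p) : ℕ) : ℝ) ^ 35 := by
      have e2 : (10 * ((∏ p ∈ F, Env.sc (pr p) : ℕ) : ℝ)) ^ 35 =
          10 ^ 35 * ((∏ p ∈ F, Env.sc (pr p) : ℕ) : ℝ) ^ 35 := by rw [mul_pow]
      have e3 : ((i : ℝ) ^ 2) ^ 35 = (i : ℝ) ^ 20 * (i : ℝ) ^ 50 := by ring
      rw [e2, e3] at h2
      have e4 : (1000 : ℝ) ^ 20 * (i : ℝ) ^ 50 ≤ (i : ℝ) ^ 20 * (i : ℝ) ^ 50 :=
        mul_le_mul_of_nonneg_right h3 (by positivity)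
      have e5 : (10 : ℝ) ^ 35 * (2 * (i : ℝ) ^ 50) ≤ (1000 : ℝ) ^ 20 * (i : ℝ) ^ 50 := by
        have : (0 : ℝ) ≤ (i : ℝ) ^ 50 := by positivity
        nlinarith
      have e6 : (10 : ℝ) ^ 35 * (2 * (i : ℝ) ^ 50) ≤
          10 ^ 35 * ((∏ p ∈ F, Env.sc (pr p) : ℕ) : ℝ) ^ 35 := by linarith
      exact le_of_mul_le_mul_left e6 (by positivity)
    rw [div_le_div_iff₀ (by positivity) (by positivity)]
    have h5 : (2 : ℝ) ^ (E.δ / 2 * ((∑ p ∈ F, Env.sc (pr p) : ℕ) : ℝ)) ≤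
        2 * (2 : ℝ) ^ (E.δ / 2 * i) := by
      have e1 : ((∑ p ∈ F, Env.sc (pr p) : ℕ) : ℝ) ≤ i + 1 := by exact_mod_cast hSum
      calc (2 : ℝ) ^ (E.δ / 2 * ((∑ p ∈ F, Env.sc (pr p) : ℕ) : ℝ)) ≤
          (2 : ℝ) ^ (1 + E.δ / 2 * i) := by
            apply Real.rpow_le_rpow_of_exponent_le (by norm_num)
            nlinarith
        _ = _ := by rw [Real.rpow_add (by norm_num), Real.rpow_one]
    calc (2 : ℝ) ^ (E.δ / 2 * ((∑ p ∈ F, Env.sc (pr p) : ℕ) : ℝ)) * (i : ℝ) ^ 50 ≤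
        (2 * (2 : ℝ) ^ (E.δ / 2 * i)) * (i : ℝ) ^ 50 :=
          mul_le_mul_of_nonneg_right h5 (by positivity)
      _ = (2 : ℝ) ^ (E.δ / 2 * i) * (2 * (i : ℝ) ^ 50) := by ring
      _ ≤ _ := mul_le_mul_of_nonneg_left h4 (by positivity)

/-- task SP -/
theorem t_SP : T_SPM := by
  intro E hG
  obtain ⟨JA, -, hA⟩ := A_boundM E hG
  obtain ⟨JB, -, hB⟩ := B_boundM E hG
  refine ⟨JA + JB + 3, fun j hj i hij k hk => ?_⟩
  have hA' := hA j (by omega) i hij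
  have hB' := hB j (by omega) i hij k hk
  have hδ := E.hδ
  have hiR : (3 : ℝ) ≤ i := by exact_mod_cast (by omega : 3 ≤ i)
  have hgu := gu_nonneg E j
  have hgh := gh_nonneg E j
  set a : ℝ := (2 : ℝ) ^ (E.δ / 2 * i) / (i : ℝ) ^ 50 with ha
  have hapos : 0 < a := by positivity
  set GA : ℕ → ℝ := fun p =>
    if (p : ℝ) ≤ (2 : ℝ) ^ (3 / 5 * (i : ℝ)) then 1 + 2 * (p * E.gu j p) else 1 with hGA
  set GB : ℕ → ℝ := fun p =>
    if (p : ℝ) ≤ (2 : ℝ) ^ (1 / 20 * (i : ℝ)) then 1 + 2 * (p * E.gh j p) else 1 with hGB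
  have hGB0 : ∀ p, 0 ≤ GB p := by
    intro p
    have := hgh p
    simp only [hGB]
    split_ifs <;> positivity
  have h1 : ∀ n ∈ cell E.δ i k,
      (1 / (n : ℝ)) * cmp (fun p => 1 + 2 * (p * E.gs j i p)) n ≤
        (1 / 2 ^ i * a) * cmp GB n := by
    intro n hn
    have hn2 := cell_sub hδ.le hk hn
    have hnR : (2 : ℝ) ^ i ≤ n := by exact_mod_cast hn2.1.le
    have h2 : cmp (fun p => 1 + 2 * (p * E.gs j i p)) n ≤ cmp GA n * cmp GB n := by
      rw [← cmp_mul_fun]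
      refine (cmp_mono n (by omega) ?_).2
      intro p _ _
      have h3 : 0 ≤ (p : ℝ) * E.gu j p := mul_nonneg (Nat.cast_nonneg p) (hgu p)
      have h4 : 0 ≤ (p : ℝ) * E.gh j p := mul_nonneg (Nat.cast_nonneg p) (hgh p)
      simp only [hGA, hGB]
      unfold Env.gs
      constructor
      · split_ifs <;> nlinarith
      · split_ifs
        · nlinarith [mul_nonneg h3 h4]
        · nlinarith
        · nlinarith
        · nlinarith
    have h5 := hA' n (by omega) hn2.2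
    have hB0 : 0 ≤ cmp GB n := cmp_nonneg n (fun p _ _ => hGB0 p)
    have h6 : cmp (fun p => 1 + 2 * (p * E.gs j i p)) n ≤ a * cmp GB n :=
      h2.trans (mul_le_mul_of_nonneg_right h5 hB0)
    have h7 : 1 / (n : ℝ) ≤ 1 / 2 ^ i := one_div_le_one_div_of_le (by positivity) hnR
    calc (1 / (n : ℝ)) * cmp (fun p => 1 + 2 * (p * E.gs j i p)) n ≤
        (1 / (n : ℝ)) * (a * cmp GB n) := mul_le_mul_of_nonneg_left h6 (by positivity)
      _ ≤ (1 / 2 ^ i) * (a * cmp GB n) :=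
          mul_le_mul_of_nonneg_right h7 (mul_nonneg hapos.le hB0)
      _ = _ := by ring
  refine (sum_le_sum h1).trans ?_
  rw [← mul_sum]
  have h3 : (1 / 2 ^ i * a) * ∑ n ∈ cell E.δ i k, cmp GB n ≤ (1 / 2 ^ i * a) * (7 * hh E.δ i) :=
    mul_le_mul_of_nonneg_left hB' (by positivity)
  refine h3.trans ?_
  have h4 := hh_le (δ_half E) i
  have h5 : (1 / 2 ^ i * a) * (7 * hh E.δ i) ≤
      (1 / 2 ^ i * a) * (7 * (2 : ℝ) ^ ((1 / 2 - E.δ) * i)) := by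
    apply mul_le_mul_of_nonneg_left _ (by positivity)
    linarith
  refine h5.trans ?_
  have h6 : (1 / 2 ^ i * a) * (7 * (2 : ℝ) ^ ((1 / 2 - E.δ) * i)) = 7 / (i : ℝ) ^ 10 * E.w i := by
    unfold Env.w
    have e1 : (2 : ℝ) ^ (-(1 / 2 + E.δ / 2) * (i : ℝ)) * (2 : ℝ) ^ i =
      (2 : ℝ) ^ ((1 / 2 - E.δ) * i) * (2 : ℝ) ^ (E.δ / 2 * i) := exp_id1 E i
    rw [ha]
    have e2 : (1 / 2 ^ i * ((2 : ℝ) ^ (E.δ / 2 * i) / (i : ℝ) ^ 50)) *
        (7 * (2 : ℝ) ^ ((1 / 2 - E.δ) * i)) = 7 / (i : ℝ) ^ 50 *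
        (((2 : ℝ) ^ ((1 / 2 - E.δ) * i) * (2 : ℝ) ^ (E.δ / 2 * i)) / 2 ^ i) := by ring
    rw [e2, ← e1]
    field_simp
  rw [h6]
  have h7 : 7 / (i : ℝ) ^ 10 ≤ 1 / 16 := by
    rw [div_le_div_iff₀ (by positivity) (by norm_num)]
    have : (3 : ℝ) ^ 10 ≤ (i : ℝ) ^ 10 := pow_le_pow_left₀ (by norm_num) hiR 10
    linarith
  have h8 := w_nonneg E i
  have h9 := mul_le_mul_of_nonneg_right h7 h8
  linarith

end Pool.Agent.Helper34.CM.SPM
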